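import Pool.Agent.Q84.Trek.Toric
import Pool.Agent.Q84.Trek.Gen

set_option autoImplicit false

/-!
# Toric Gaussian directed acyclic graph ideals are the shortest trek ideals

For every directed acyclic graph `G` the ideal of the Gaussian model of `G` is toric if and only
if the shortest trek map of `G` is defined and the ideal is the shortest trek ideal of `G`.

Idea of the proof. Let `i < j` be nonadjacent vertices joined by a trek and let `C` be the set of
the parents of `j`. The determinant of the submatrix of the covariance matrix with rows `i, C` and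
columns `j, C` lies in the ideal. If the ideal is toric, then the term `sigma_ij prod sigma_cc`
must cancel against another term, and a comparison of the lowest degrees in the `lambda`-variables
shows that this term is `sigma_ic sigma_cj` times the other `sigma_c'c'`, for some `c` in `C`. So
`sigma_ij sigma_cc - sigma_ic sigma_cj` is in the ideal. By induction this gives the uniqueness of
the shortest treks, and that the simple trek rule is obtained from the shortest trek map by the
substitution `a_i ↦ phi(sigma_ii)`, `lambda_kl ↦ phi(sigma_kl) / phi(sigma_kk)`.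
-/

namespace Pool.Agent.Results.MP_3f84da_ag.ShortestTrek

open MvPolynomial Pool.Agent.Q84.Trek

/-- An ideal is toric in the wide sense if it is the kernel of a homomorphism to the algebra of
some commutative monoid `M` (such as `ℕ^m`: a polynomial ring, or `ℤ^m`: a Laurent polynomial
ring) which sends every variable to a scalar multiple (possibly zero) of an element of `M`. -/
def IsToricWide {ι : Type} (I : Ideal (MvPolynomial ι ℂ)) : Prop :=
  ∃ (M : Type) (_ : AddCommMonoid M) (θ : MvPolynomial ι ℂ →ₐ[ℂ] AddMonoidAlgebra ℂ M),
    (∀ p, ∃ (u : M) (c : ℂ), θ (X p) = AddMonoidAlgebra.single u c) ∧ I = RingHom.ker θ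

/-- An ideal is generated by binomials if it is generated by polynomials with at most two
terms. -/
def BinomialGenerated {ι : Type} (I : Ideal (MvPolynomial ι ℂ)) : Prop :=
  ∃ S : Set (MvPolynomial ι ℂ), (∀ f ∈ S, ∃ (m m' : ι →₀ ℕ) (a b : ℂ),
    f = monomial m a + monomial m' b) ∧ I = Ideal.span S

theorem wt_monomial {n : ℕ} {E : Fin n → Fin n → Prop} {i j : Fin n} {P : List (Fin n)}
    (hP : P ∈ T E i j) : ∃ u : Par E →₀ ℕ, wt E P = monomial u 1 := by
  have h1 : ∀ (P : List (Fin n)), P.IsChain (fun x y => E x y ∨ E y x) →
      ∃ u : Par E →₀ ℕ, edgeProd E P = monomial u 1 := by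
    intro P
    induction P with
    | nil => intro _; exact ⟨0, rfl⟩
    | cons x l ih =>
      rcases l with _ | ⟨y, l⟩
      · intro _; exact ⟨0, rfl⟩
      · intro h
        rw [List.isChain_cons_cons] at h
        obtain ⟨u, hu⟩ := ih h.2
        rw [edgeProd, hu, edgeVar]
        split_ifs with h1 h2
        · exact ⟨Finsupp.single _ 1 + u, by rw [X, monomial_mul, one_mul]⟩
        · exact ⟨Finsupp.single _ 1 + u, by rw [X, monomial_mul, one_mul]⟩
        · exact absurd h.1 (not_or.mpr ⟨h1, h2⟩)
  obtain ⟨u, hu⟩ := h1 P hP.path
  rw [wt, hu]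
  rcases h : P.min? with _ | t
  · rw [List.min?_eq_none_iff] at h
    subst h
    exact absurd hP.head (by simp)
  · refine ⟨Finsupp.single (Sum.inl t) 1 + u, ?_⟩
    simp only [Option.elim]
    rw [X, monomial_mul, one_mul]

theorem isToric_shortest {n : ℕ} {E : Fin n → Fin n → Prop}
    (hdef : PsiDefined E) : IsToric (shortestTrekIdeal E) := by
  classical
  let e : Par E ≃ Fin (Fintype.card (Par E)) := Fintype.equivFin _
  refine ⟨Fintype.card (Par E), (rename e).comp (psi E), ?_, ?_⟩
  · intro p
    have hp : psi E (X p) = G E p.1.1 p.1.2 := by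
      rw [psi, aeval_X]; rfl
    rw [AlgHom.comp_apply, hp]
    by_cases hT : (T E p.1.1 p.1.2).Nonempty
    · right
      have h1 : ∃ u : Par E →₀ ℕ, G E p.1.1 p.1.2 = monomial u 1 := by
        rcases eq_or_lt_of_le p.2 with h | h
        · rw [← h, G_self]; exact ⟨_, rfl⟩
        · obtain ⟨P, hP, huniq⟩ := hdef _ _ h hT
          have h2 : S E p.1.1 p.1.2 = {P} := by
            ext Q
            exact ⟨fun hQ => huniq Q hQ, fun hQ => by rw [Set.mem_singleton_iff] at hQ; rwa [hQ]⟩
          rw [G, h2, finsum_mem_singleton]
          exact wt_monomial hP.1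
      obtain ⟨u, hu⟩ := h1
      rw [hu, rename_monomial]
      exact ⟨_, rfl⟩
    · left
      rw [G_of_empty hT, map_zero]
  · ext f
    change psi E f = 0 ↔ rename e (psi E f) = 0
    exact (map_eq_zero_iff (rename e) (rename_injective e e.injective)).symm

/-- **Toric Gaussian directed acyclic graph ideals.** For every directed acyclic graph on the
vertices `0, …, n - 1`, labelled so that `i < j` for every edge `i → j`, the following are
equivalent: the vanishing ideal of its Gaussian model is toric (the kernel of a homomorphism to a
polynomial ring which sends every variable to a monomial or to zero); it is toric in the wide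
sense; it is generated by binomials; the shortest trek map is defined and the vanishing ideal is
the shortest trek ideal. -/
theorem result (n : ℕ) (E : Fin n → Fin n → Prop) (hE : ∀ i j, E i j → i < j) :
    [IsToric (vanishingIdeal E), IsToricWide (vanishingIdeal E),
      BinomialGenerated (vanishingIdeal E),
      PsiDefined E ∧ vanishingIdeal E = shortestTrekIdeal E].TFAE := by
  have h12 : IsToric (vanishingIdeal E) → IsToricWide (vanishingIdeal E) := by
    rintro ⟨m, θ, h1, h2⟩
    refine ⟨Fin m →₀ ℕ, inferInstance, θ, fun p => ?_, h2⟩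
    rcases h1 p with h | ⟨u, hu⟩
    · exact ⟨0, 0, by rw [h, AddMonoidAlgebra.single_zero]⟩
    · exact ⟨u, 1, hu⟩
  have h2B : IsToricWide (vanishingIdeal E) → BP (vanishingIdeal E) := by
    rintro ⟨M, _, θ, h1, h2⟩
    rw [h2]
    exact bp_ker θ h1
  have h3B : BinomialGenerated (vanishingIdeal E) → BP (vanishingIdeal E) := by
    rintro ⟨S, h1, h2⟩
    rw [h2]
    exact bp_span S h1
  have h23 : IsToricWide (vanishingIdeal E) → BinomialGenerated (vanishingIdeal E) := fun h =>
    ⟨_, fun _ hf => hf.2, span_of_bp (h2B h)⟩
  have h34 : BinomialGenerated (vanishingIdeal E) →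
      (PsiDefined E ∧ vanishingIdeal E = shortestTrekIdeal E) := fun h => main hE (h3B h)
  have h41 : (PsiDefined E ∧ vanishingIdeal E = shortestTrekIdeal E) →
      IsToric (vanishingIdeal E) := by
    rintro ⟨h1, h2⟩
    rw [h2]
    exact isToric_shortest h1
  tfae_have 1 → 2 := h12
  tfae_have 2 → 3 := h23
  tfae_have 3 → 4 := h34
  tfae_have 4 → 1 := h41
  tfae_finish

end Pool.Agent.Results.MP_3f84da_ag.ShortestTrek
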